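import Mathlib
import Pool.Agent.Lib.helper11.NullPlasticB

namespace Pool.Agent.Results.MP_4fc6a2_gt.NotPlastic

/-- every non-expansive bijection is an isometry -/
def IsPlastic (Z : Type) [MetricSpace Z] : Prop :=
  ∀ f : Z → Z, Function.Bijective f → (∀ x y, dist (f x) (f y) ≤ dist x y) →
    ∀ x y, dist (f x) (f y) = dist x y

/-- empty or a continuous image of a Polish space -/
def IsAnalytic {E : Type} [TopologicalSpace E] (s : Set E) : Prop :=
  s = ∅ ∨ ∃ (P : Type) (_ : TopologicalSpace P) (_ : PolishSpace P) (f : P → E),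
    Continuous f ∧ Set.range f = s

theorem result :
    (¬ ∀ (E : Type) [NormedAddCommGroup E] [NormedSpace ℝ E] [TopologicalSpace.SeparableSpace E],
      ∃ G : AddSubgroup E, Dense (G : Set E) ∧ IsAnalytic (G : Set E) ∧ IsPlastic G) ∧
    ∀ G : AddSubgroup ℝ, Dense (G : Set ℝ) → IsAnalytic (G : Set ℝ) → ¬ IsPlastic G := by
  have key : ∀ G : AddSubgroup ℝ, Dense (G : Set ℝ) → IsAnalytic (G : Set ℝ) → ¬ IsPlastic G := by
    intro G hd ha hp
    have ha' : MeasureTheory.AnalyticSet (G : Set ℝ) := by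
      rcases ha with h | h
      · rw [h]; exact MeasureTheory.analyticSet_empty
      · exact MeasureTheory.analyticSet_iff_exists_polishSpace_range.2 h
    obtain ⟨f, h1, h2, x, y, h3⟩ :=
      Pool.Agent.Lib.helper11.NullPlastic.not_plastic_analytic G hd ha'
    exact h3 (hp f h1 h2 x y)
  refine ⟨fun h => ?_, key⟩
  obtain ⟨G, h1, h2, h3⟩ := h ℝ
  exact key G h1 h2 h3

end Pool.Agent.Results.MP_4fc6a2_gt.NotPlastic
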